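import Mathlib
import Pool.Agent.W905.HalfCohenDefs
import Pool.Agent.W905.HalfCohen

/-!
# Adding no half-Cohen real is not preserved by two-step iterations

Let `P` be Laver forcing and let `d` be the Laver real, which dominates the ground model reals.
Let `Q` be the forcing, in the extension by `P`, with partial functions whose domain is
co-infinite and whose values are bounded by `d`.

* `P` adds no half-Cohen real (pure decision and fusion).
* `Q` is forced to add no unbounded real over the extension by `P`, so it adds no half-Cohen real
  over it.
* The generic function of `Q` agrees infinitely often with every function of the extension by `P`
  which is bounded by `d`, and so, after a finite change, with every ground model function. So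
  the iteration adds a half-Cohen real over the ground model.
-/

set_option autoImplicit false

namespace Pool.Agent.Results.MP_ea0635_lc.TwoStep

open Pool.Agent.W905.HalfCohen

/-- There are a forcing notion `P` which adds no half-Cohen real and a `P`-name `Q` for a forcing
notion which is forced to add no half-Cohen real over the intermediate model, such that the
two-step iteration `P * Q` adds a half-Cohen real over the ground model; in fact one name `x` of a
real is forced by every condition to agree infinitely often with each ground model real. -/
theorem result : ∃ (P : Type) (_ : PartialOrder P) (Q : PosetName P),
    Nonempty P ∧ ¬ AddsHalfCohen P ∧ ¬ Q.AddsHalfCohen ∧ AddsHalfCohen Q.Iter ∧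
    ∃ x : RealName Q.Iter, ∀ (r : Q.Iter) (f : ℕ → ℕ), ForcesInfEq r x f := main

end Pool.Agent.Results.MP_ea0635_lc.TwoStep
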